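import Pool.Agent.KTB.StmtsKD

set_option autoImplicit false

/-!
# Squad KTB, row IS1: removal of the class of a free point keeps a block
-/

namespace Pool.Agent.KTB.H22

open Finset
open scoped Classical

variable {ι T : Type} [Fintype ι]

/-- if a sum of naturals is one and one term is nonzero, this term is one and the others vanish -/
lemma sum_one {α : Type} {s : Finset α} {f : α → ℕ} (h : ∑ i ∈ s, f i = 1) {i : α} (hi : i ∈ s)
    (hf : f i ≠ 0) : f i = 1 ∧ ∀ j ∈ s, j ≠ i → f j = 0 := by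
  have h1 := Finset.add_sum_erase s f hi
  have h2 : f i = 1 := by omega
  refine ⟨h2, fun j hj hji => ?_⟩
  have h3 : ∑ x ∈ s.erase i, f x = 0 := by omega
  exact (Finset.sum_eq_zero_iff.1 h3) j (mem_erase.2 ⟨hji, hj⟩)

theorem is1 (hI : IdnStmt) (hT : TwoStmt) (hR : RmvStmt) (hD : DstStmt) (hC : DscStmt)
    (hX : XcsStmt) (hP : IpxStmt) : Is1Stmt := by
  intro ι T _ D S K P Q μ k t hMn hK hF hPK hB hnot
  have hMn0 := hMn
  obtain ⟨hLL, hμ, hmin⟩ := hMn
  obtain ⟨X, π, kk, hV, htX, hXray, hsm, hclo⟩ := hX ι T D S K μ k t hLL hK hF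
  obtain ⟨hXsg, hK1⟩ := hP ι T D S X K μ k t hK hF hV htX
  obtain ⟨hRel, -, htN, hN, hnul, hMn1⟩ := hR ι T D S X t μ hV htX
  have hMn' : D.Mn (S \ X) μ := hMn1 hMn0
  obtain ⟨hIsol, hIrel, hIdiff, hIadd, hIcl⟩ := hI ι T D S
  have hNS : ∀ y, y ∈ D.N S → y ∈ S := fun y hy => (mem_filter.1 hy).1
  have hsgS : ∀ y, y ∈ D.sg S t → y ∈ S := fun y hy => (mem_filter.1 hy).1
  have hsgN : ∀ y, y ∈ D.sg S t → y ∈ D.N S := by
    intro y hy
    obtain ⟨hyS, c, hc, hρ⟩ := mem_filter.1 hy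
    obtain ⟨-, ρ, hρR, hρt⟩ := mem_filter.1 htN
    exact mem_filter.2 ⟨hyS, ρ, hρR, by rw [hρ ρ hρR]; exact mul_ne_zero hc hρt⟩
  have huniq : ∀ y ∈ D.N S, ∀ j ∈ K, ∀ j' ∈ K, D.x j y ≠ 0 → D.x j' y ≠ 0 → j = j' := by
    intro y hy j hj j' hj' h1 h2
    obtain ⟨i, hiK, hi1, hi⟩ := hK.cov y hy
    have e1 : j = i := by
      by_contra hne
      exact h1 (hi j hj hne)
    have e2 : j' = i := by
      by_contra hne
      exact h2 (hi j' hj' hne)
    rw [e1, e2]
  -- elements meeting Q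
  have f2 : ∀ a ∈ S, ∀ q ∈ Q, D.x q a ≠ 0 → (∃ p ∈ P, D.x p a ≠ 0) ∧ a ∈ D.N S ∧
      ∑ q ∈ Q, D.x q a = 1 := by
    intro a ha q hq hqa
    rcases hB.once a ha with ⟨h1, h2⟩ | ⟨h1, h2⟩
    · have : ∃ p ∈ P, D.x p a ≠ 0 := by
        by_contra hcon
        push Not at hcon
        rw [Finset.sum_eq_zero hcon] at h1
        exact zero_ne_one h1
      refine ⟨this, ?_, h2⟩
      obtain ⟨p, hp, hpa⟩ := this
      by_contra haN
      exact hpa (hK.out a ha haN p (hPK hp))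
    · exact absurd (h2 q hq) hqa
  have f3 : ∀ q ∈ Q, ∃ y ∈ D.N S, D.x q y ≠ 0 := by
    intro q hq
    obtain ⟨l, hl⟩ := hLL.1
    have h1 := hIsol l hl q
    have : ∃ a ∈ S, D.x q a ≠ 0 := by
      by_contra hcon
      push Not at hcon
      rw [Finset.sum_eq_zero (fun a ha => by rw [hcon a ha]; simp)] at h1
      exact zero_ne_one h1
    obtain ⟨a, ha, hqa⟩ := this
    exact ⟨a, (f2 a ha q hq hqa).2.1, hqa⟩
  have h1 : ∀ y ∈ D.N S, ∑ q ∈ Q, D.x q y ≤ 1 := by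
    intro y hy
    rcases hB.once y (hNS y hy) with ⟨-, h⟩ | ⟨-, h⟩
    · exact le_of_eq h
    · rw [Finset.sum_eq_zero h]; exact Nat.zero_le _
  have h2 : ∀ y ∈ D.N S, ∀ q ∈ Q, D.x q y ≠ 0 → ∃ p ∈ P, D.x p y ≠ 0 :=
    fun y hy q hq hqy => (f2 y (hNS y hy) q hq hqy).1
  obtain ⟨hG1, hG2, hQ⟩ := hD ι T D S K P Q μ k t hK hF hPK h1 h2 f3
  set G := (D.sg S t).filter fun y => ∃ p ∈ P, D.x p y ≠ 0 with hGdef
  set pr := D.par S K t with hpr
  set Q₁ := Q.filter fun q => ∃ y ∈ D.N (S \ X), D.x q y ≠ 0 with hQ₁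
  have hparsg : ∀ j ∈ pr, ∀ y ∈ S, D.x j y ≠ 0 → y ∈ D.sg S t := by
    intro j hj y hy hjy
    exact (mem_filter.1 hj).2 (mem_filter.2 ⟨hy, hjy⟩)
  have hparK : ∀ j ∈ pr, j ∈ K := fun j hj => (mem_filter.1 hj).1
  have hN' : ∀ y, y ∈ D.N (S \ X) ↔ y ∈ D.N S ∧ y ∉ D.sg S t := by
    intro y; rw [hN, mem_sdiff]
  have hcardQ₁ : Q₁.card ≤ (P \ pr).card := by
    apply hC ι T D (S \ X) (K \ pr) (P \ pr) Q₁ μ hMn' hK1
    · intro p hp
      rw [mem_sdiff] at hp ⊢
      exact ⟨hPK hp.1, hp.2⟩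
    · intro y hy
      exact le_trans (Finset.sum_le_sum_of_subset (filter_subset _ _)) (h1 y ((hN' y).1 hy).1)
    · intro y hy q hq hqy
      obtain ⟨hyN, hysg⟩ := (hN' y).1 hy
      obtain ⟨p, hp, hpy⟩ := h2 y hyN q (mem_filter.1 hq).1 hqy
      refine ⟨p, mem_sdiff.2 ⟨hp, fun hpp => hysg (hparsg p hpp y (hNS y hyN) hpy)⟩, hpy⟩
    · intro q hq
      exact (mem_filter.1 hq).2
  have hQsub : Q \ Q₁ ⊆ Q.filter fun q => ∀ y ∈ D.N S, D.x q y ≠ 0 → y ∈ D.sg S t := by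
    intro q hq
    obtain ⟨hqQ, hq1⟩ := mem_sdiff.1 hq
    refine mem_filter.2 ⟨hqQ, fun y hy hqy => ?_⟩
    by_contra hsg
    exact hq1 (mem_filter.2 ⟨hqQ, y, (hN' y).2 ⟨hy, hsg⟩, hqy⟩)
  have hQc : (Q \ Q₁).card ≤ (P ∩ pr).card := le_trans (card_le_card hQsub) hQ
  have hQ₁Q : Q₁ ⊆ Q := filter_subset _ _
  have e1 : (Q \ Q₁).card + Q₁.card = Q.card := Finset.card_sdiff_add_card_eq_card hQ₁Q
  have e2 : (P \ pr).card + (P ∩ pr).card = P.card := Finset.card_sdiff_add_card_inter P pr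
  have e3 := hB.card
  have hcard1 : (P \ pr).card = Q₁.card := by omega
  have hcard2 : (Q \ Q₁).card = (P ∩ pr).card := by omega
  -- Q and K are disjoint
  have hQK : ∀ q ∈ Q, q ∉ K := by
    intro q hq hqK
    obtain ⟨y, hy, hqy⟩ := f3 q hq
    obtain ⟨p, hp, hpy⟩ := h2 y hy q hq hqy
    have := huniq y hy p (hPK hp) q hqK hpy hqy
    subst this
    exact (disjoint_left.1 hB.disj hp) hq
  -- relations
  have hρX : ∀ x ∈ X, ∃ c : ℚ, 0 < c ∧ (∀ l, D.Sol S l → l x = c * l t) ∧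
      ∀ ρ ∈ D.R S, ρ x = c * ρ t := by
    intro x hx
    obtain ⟨c, hc, hl⟩ := hXray x hx
    refine ⟨c, hc, hl, fun ρ hρ => ?_⟩
    obtain ⟨l, hl0⟩ := hLL.1
    have a1 := hl l hl0
    have a2 := hl (l + ρ) (hIadd l hl0 ρ hρ)
    simp only [Pi.add_apply] at a2
    linarith
  -- the claim
  have hclaim : ∀ a ∈ D.sg S t, a ∉ X → ∀ q ∈ Q₁, D.x q a = 0 := by
    intro a hasg haX q₁ hq₁
    by_contra hqa
    have haS := hsgS a hasg
    have hq₁Q := hQ₁Q hq₁
    obtain ⟨haP, haN, hasum⟩ := f2 a haS q₁ hq₁Q hqa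
    have haG : a ∈ G := mem_filter.2 ⟨hasg, haP⟩
    have haq : ∀ q ∈ Q \ Q₁, D.x q a = 0 := by
      intro q hq
      obtain ⟨hqQ, hq1⟩ := mem_sdiff.1 hq
      exact (sum_one hasum hq₁Q hqa).2 q hqQ (fun h => hq1 (h ▸ hq₁))
    let Bq : T → Finset ι := fun q => (D.N S).filter fun y => D.x q y ≠ 0
    have hB2 : ∀ q ∈ Q \ Q₁, 2 ≤ (Bq q).card := by
      intro q hq
      exact hT ι T D S q (f3 q (mem_sdiff.1 hq).1)
    have hBG : ∀ q ∈ Q \ Q₁, Bq q ⊆ G.erase a := by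
      intro q hq y hy
      obtain ⟨hyN, hqy⟩ := mem_filter.1 hy
      have hqQ := (mem_sdiff.1 hq).1
      refine mem_erase.2 ⟨?_, mem_filter.2 ⟨?_, h2 y hyN q hqQ hqy⟩⟩
      · intro h
        rw [h] at hqy
        exact hqy (haq q hq)
      · exact (mem_filter.1 (hQsub hq)).2 y hyN hqy
    have hdisj : ∀ q ∈ Q \ Q₁, ∀ q' ∈ Q \ Q₁, q ≠ q' → Disjoint (Bq q) (Bq q') := by
      intro q hq q' hq' hne
      rw [disjoint_left]
      intro y hy hy'
      obtain ⟨hyN, hqy⟩ := mem_filter.1 hy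
      obtain ⟨-, hqy'⟩ := mem_filter.1 hy'
      have hs := (f2 y (hNS y hyN) q (mem_sdiff.1 hq).1 hqy).2.2
      exact hqy' ((sum_one hs (mem_sdiff.1 hq).1 hqy).2 q' (mem_sdiff.1 hq').1 (Ne.symm hne))
    have hcu : ((Q \ Q₁).biUnion Bq).card = ∑ q ∈ Q \ Q₁, (Bq q).card :=
      card_biUnion (fun q hq q' hq' hne => hdisj q hq q' hq' hne)
    have hsub : (Q \ Q₁).biUnion Bq ⊆ G.erase a := biUnion_subset.2 hBG
    have hge : 2 * (Q \ Q₁).card ≤ ∑ q ∈ Q \ Q₁, (Bq q).card := by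
      have := Finset.card_nsmul_le_sum (Q \ Q₁) (fun q => (Bq q).card) 2 hB2
      rw [smul_eq_mul] at this
      rw [mul_comm]; exact this
    have hcG : (G.erase a).card + 1 = G.card := Finset.card_erase_add_one haG
    have hle := card_le_card hsub
    rw [hcu] at hle
    have hGc : G.card = 2 * (P ∩ pr).card + 1 := by omega
    have htP : ∃ p ∈ P, D.x p t ≠ 0 := by
      by_contra hcon
      push Not at hcon
      have := hG2 hcon
      omega
    have hun : (Q \ Q₁).biUnion Bq = G.erase a := by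
      apply eq_of_subset_of_card_le hsub
      rw [hcu]
      omega
    have htwo : ∀ q ∈ Q \ Q₁, (Bq q).card = 2 := by
      intro q hq
      by_contra hne
      have h3 : 2 < (Bq q).card := lt_of_le_of_ne (hB2 q hq) (Ne.symm hne)
      have : ∑ q ∈ Q \ Q₁, 2 < ∑ q ∈ Q \ Q₁, (Bq q).card :=
        Finset.sum_lt_sum hB2 ⟨q, hq, h3⟩
      rw [sum_const, smul_eq_mul] at this
      omega
    have htG : t ∈ G := mem_filter.2 ⟨mem_filter.2 ⟨hNS t htN, 1, one_ne_zero, fun ρ _ => by ring⟩,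
      htP⟩
    have key : ∀ x ∈ X ∩ G, ∃ q y, q ∈ Q ∧ D.Clean S q x y ∧ y ∈ D.sm S t ∧ π y ∈ X ∧
        π y ∈ G ∧ π y ≠ t ∧ kk y ∈ K ∧ D.Clean S (kk y) y (π y) := by
      intro x hx
      obtain ⟨hxX, hxG⟩ := mem_inter.1 hx
      have hxa : x ≠ a := fun h => haX (h ▸ hxX)
      have hxu : x ∈ (Q \ Q₁).biUnion Bq := by
        rw [hun]; exact mem_erase.2 ⟨hxa, hxG⟩
      obtain ⟨q, hq, hxq⟩ := mem_biUnion.1 hxu
      have hqQ := (mem_sdiff.1 hq).1
      obtain ⟨u, v, huv, huveq⟩ := card_eq_two.1 (htwo q hq)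
      have hy : ∃ y, y ≠ x ∧ Bq q = {x, y} := by
        rw [huveq] at hxq
        rcases mem_insert.1 hxq with h | h
        · subst h
          exact ⟨v, Ne.symm huv, huveq⟩
        · rw [mem_singleton] at h
          subst h
          exact ⟨u, huv, by rw [huveq, pair_comm]⟩
      obtain ⟨y, hyx, hyeq⟩ := hy
      have hxmem := mem_filter.1 hxq
      have hymem : y ∈ Bq q := by rw [hyeq]; simp
      obtain ⟨hyN, hqy⟩ := mem_filter.1 hymem
      have hxS := hNS x hxmem.1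
      have hyS := hNS y hyN
      have hx1 : D.x q x = 1 := (sum_one (f2 x hxS q hqQ hxmem.2).2.2 hqQ hxmem.2).1
      have hy1 : D.x q y = 1 := (sum_one (f2 y hyS q hqQ hqy).2.2 hqQ hqy).1
      have hcl : D.Clean S q x y := by
        refine ⟨hxS, hyS, Ne.symm hyx, hx1, hy1, fun b hb hbx hby => ?_⟩
        by_contra hqb
        have hbB : b ∈ Bq q := mem_filter.2 ⟨(f2 b hb q hqQ hqb).2.1, hqb⟩
        rw [hyeq] at hbB
        rcases mem_insert.1 hbB with h | h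
        · exact hbx h
        · exact hby (mem_singleton.1 h)
      obtain ⟨c, hc, hcl1, hcρ⟩ := hρX x hxX
      obtain ⟨hid1, hid2⟩ := hIcl q x y hcl
      have hysm : y ∈ D.sm S t := by
        refine mem_filter.2 ⟨hyS, c, hc, fun ρ hρ => ?_⟩
        have a1 := hid2 ρ hρ
        have a2 := hcρ ρ hρ
        linarith
      have hly : ∀ l, D.Sol S l → l y = 1 - c * l t := by
        intro l hl
        have a1 := hid1 l hl
        have a2 := hcl1 l hl
        linarith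
      have hyX : y ∉ X := by
        intro hyX
        obtain ⟨c', hc', -, hρ'⟩ := hρX y hyX
        obtain ⟨-, ρ, hρR, hρt⟩ := mem_filter.1 htN
        have a1 := hid2 ρ hρR
        have a2 := hcρ ρ hρR
        have a3 := hρ' ρ hρR
        have a4 : (c + c') * ρ t = 0 := by rw [add_mul]; linarith
        rcases mul_eq_zero.1 a4 with h | h
        · linarith
        · exact hρt h
      have hpriv : D.Priv (S \ X) y q := by
        refine ⟨mem_sdiff.2 ⟨hyS, hyX⟩, hy1, fun b hb hby => ?_⟩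
        obtain ⟨hbS, hbX⟩ := mem_sdiff.1 hb
        exact hcl.2.2.2.2.2 b hbS (fun h => hbX (h ▸ hxX)) hby
      obtain ⟨hkkpar, hkkcl⟩ := hsm y hysm
      have hqkk : q ≠ kk y := fun h => hQK q hqQ (h ▸ hparK _ hkkpar)
      have hπX : π y ∈ X := hclo y hysm c hc hly q hqkk hpriv
      have hkkK := hparK _ hkkpar
      have hkkP : kk y ∈ P := by
        obtain ⟨p, hp, hpy⟩ := (f2 y hyS q hqQ hqy).1
        have hkky : D.x (kk y) y ≠ 0 := by rw [hkkcl.2.2.2.1]; exact one_ne_zero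
        have := huniq y hyN p (hPK hp) (kk y) hkkK hpy hkky
        rw [← this]; exact hp
      have hπ1 : D.x (kk y) (π y) = 1 := hkkcl.2.2.2.2.1
      refine ⟨q, y, hqQ, hcl, hysm, hπX, ?_, ?_, hkkK, hkkcl⟩
      · exact mem_filter.2 ⟨hXsg hπX, kk y, hkkP, by rw [hπ1]; exact one_ne_zero⟩
      · intro h
        have hne : kk y ≠ k := fun h' => hF.kpar (h' ▸ hkkpar)
        have := hF.oth (kk y) hkkK hne
        rw [h, this] at hπ1
        exact zero_ne_one hπ1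
    have hTne : Nonempty T := ⟨k⟩
    choose! qf yf hk1 hk2 hk3 hk4 hk5 hk6 hk7 hk8 using key
    have hinj : Set.InjOn (fun x => π (yf x)) ((X ∩ G : Finset ι) : Set ι) := by
      intro x hx x' hx' hxx
      simp only at hxx
      have hx0 : x ∈ X ∩ G := by simpa using hx
      have hx0' : x' ∈ X ∩ G := by simpa using hx'
      have c1 := hk8 x hx0
      have c2 := hk8 x' hx0'
      rw [← hxx] at c2
      have hzN : π (yf x) ∈ D.N S := hsgN _ (hXsg (hk4 x hx0))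
      have hkk : kk (yf x) = kk (yf x') := by
        apply huniq _ hzN _ (hk7 x hx0) _ (hk7 x' hx0')
        · rw [c1.2.2.2.2.1]; exact one_ne_zero
        · rw [c2.2.2.2.2.1]; exact one_ne_zero
      have hyy : yf x' = yf x := by
        by_contra hne
        have h3 := c1.2.2.2.2.2 (yf x') c2.1 hne c2.2.2.1
        rw [hkk, c2.2.2.2.1] at h3
        exact one_ne_zero h3
      have d1 := hk2 x hx0
      have d2 := hk2 x' hx0'
      rw [hyy] at d2
      have hq1 : D.x (qf x) (yf x) ≠ 0 := by rw [d1.2.2.2.2.1]; exact one_ne_zero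
      have hq2 : D.x (qf x') (yf x) ≠ 0 := by rw [d2.2.2.2.2.1]; exact one_ne_zero
      have hqq : qf x' = qf x := by
        by_contra hne
        have hs := (f2 (yf x) d1.2.1 (qf x) (hk1 x hx0) hq1).2.2
        exact hq2 ((sum_one hs (hk1 x hx0) hq1).2 (qf x') (hk1 x' hx0') hne)
      rw [hqq] at d2
      by_contra hne
      have h3 := d1.2.2.2.2.2 x' d2.1 (Ne.symm hne) d2.2.2.1
      rw [d2.2.2.2.1] at h3
      exact one_ne_zero h3
    have hmaps : ∀ x ∈ X ∩ G, π (yf x) ∈ (X ∩ G).erase t := by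
      intro x hx
      exact mem_erase.2 ⟨hk6 x hx, mem_inter.2 ⟨hk4 x hx, hk5 x hx⟩⟩
    have hcle := Finset.card_le_card_of_injOn (fun x => π (yf x)) hmaps hinj
    have htXG : t ∈ X ∩ G := mem_inter.2 ⟨htX, htG⟩
    have := Finset.card_erase_add_one htXG
    omega
  -- conclusion
  refine ⟨X, Q₁, hV, hMn', hK1, ⟨?_, ?_, hcard1, ?_⟩⟩
  · by_contra hne
    rw [not_nonempty_iff_eq_empty, sdiff_eq_empty_iff_subset] at hne
    exact hnot hne
  · exact disjoint_of_subset_left sdiff_subset (disjoint_of_subset_right hQ₁Q hB.disj)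
  · intro a ha
    obtain ⟨haS, haX⟩ := mem_sdiff.1 ha
    by_cases hasg : a ∈ D.sg S t
    · right
      have hat : a ≠ t := fun h => haX (h ▸ htX)
      obtain ⟨j, hj, hja⟩ := hF.cls a hasg hat
      refine ⟨fun p hp => ?_, fun q hq => hclaim a hasg haX q hq⟩
      obtain ⟨hpP, hppr⟩ := mem_sdiff.1 hp
      by_contra hpa
      have := huniq a (hsgN a hasg) p (hPK hpP) j (hparK j hj) hpa hja
      exact hppr (this ▸ hj)
    · have hz1 : ∀ p ∈ P, p ∉ P \ pr → D.x p a = 0 := by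
        intro p hp hnp
        have hppr : p ∈ pr := by
          by_contra h
          exact hnp (mem_sdiff.2 ⟨hp, h⟩)
        by_contra hpa
        exact hasg (hparsg p hppr a haS hpa)
      have hz2 : ∀ q ∈ Q, q ∉ Q₁ → D.x q a = 0 := by
        intro q hq hq1
        by_contra hqa
        have haN := (f2 a haS q hq hqa).2.1
        exact hq1 (mem_filter.2 ⟨hq, a, (hN' a).2 ⟨haN, hasg⟩, hqa⟩)
      rcases hB.once a haS with ⟨s1, s2⟩ | ⟨s1, s2⟩
      · left
        exact ⟨(Finset.sum_subset sdiff_subset hz1).trans s1,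
          (Finset.sum_subset hQ₁Q hz2).trans s2⟩
      · right
        exact ⟨fun p hp => s1 p (mem_sdiff.1 hp).1, fun q hq => s2 q (hQ₁Q hq)⟩

end Pool.Agent.KTB.H22
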